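import Mathlib.Topology.Sheaves.Presheaf
import Mathlib.Data.Int.Star
import Mathlib.Algebra.Order.Ring.Star
import Mathlib.Analysis.SpecialFunctions.Pow.Real
import Mathlib.Analysis.Normed.Module.Convex
import Mathlib.Topology.Algebra.Module.FiniteDimension
import Mathlib.Analysis.Normed.Group.AddTorsor
import Mathlib.Analysis.InnerProductSpace.Projection.Minimal
import Mathlib.Algebra.Order.Star.Real
import Mathlib.Analysis.Convex.Radon
import Mathlib.Combinatorics.Enumerative.DoubleCounting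
import Mathlib.Tactic.Algebra.Basic

/-!
A fractional Helly estimate with exponent `1 / (d + 1)`, proved by the sampling argument
(double counting of violators and extreme elements).
-/

namespace Pool.Agent.MP_ff3a4f_co

open Finset

section counting

variable {ι : Type*} [DecidableEq ι]

/-- First double counting: feasible `r`-sets have many violators, `(r+1)`-sets have few
extreme elements. -/
theorem count_feasible (P : Finset ι) (feas : Finset ι → Prop) [DecidablePred feas]
    (viol : Finset ι → ι → Prop) [∀ R, DecidablePred (viol R)] (D m r : ℕ)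
    (h1 : ∀ R ⊆ P, feas R → m ≤ ((P \ R).filter (viol R)).card)
    (h2 : ∀ R ⊆ P, (R.filter (fun s => feas (R.erase s) ∧ viol (R.erase s) s)).card ≤ D) :
    ((P.powersetCard r).filter feas).card * m ≤ P.card.choose (r + 1) * D := by
  classical
  rw [← card_powersetCard]
  refine card_mul_le_card_mul
    (fun R R' => ∃ s, s ∉ R ∧ R' = insert s R ∧ viol R s) ?_ ?_
  · intro R hR
    rw [mem_filter, mem_powersetCard] at hR
    obtain ⟨⟨hRP, hRc⟩, hf⟩ := hR
    refine (h1 R hRP hf).trans ?_
    refine card_le_card_of_injOn (fun s => insert s R) ?_ ?_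
    · intro s hs
      simp only [coe_filter, mem_sdiff, Set.mem_ofPred_eq] at hs
      obtain ⟨⟨hsP, hsR⟩, hv⟩ := hs
      simp only [mem_coe, mem_bipartiteAbove, mem_powersetCard]
      refine ⟨⟨insert_subset hsP hRP, ?_⟩, s, hsR, rfl, hv⟩
      rw [card_insert_of_notMem hsR, hRc]
    · intro s hs t ht hst
      simp only [coe_filter, mem_sdiff, Set.mem_ofPred_eq] at hs ht
      have : s ∈ insert t R := by
        have h : insert s R = insert t R := hst
        rw [← h]; exact mem_insert_self _ _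
      rcases mem_insert.1 this with h | h
      · exact h
      · exact absurd h hs.1.2
  · intro R' hR'
    rw [mem_powersetCard] at hR'
    refine le_trans ?_ (h2 R' hR'.1)
    refine le_trans (card_le_card ?_) (card_image_le (f := fun s => R'.erase s))
    intro R hR
    rw [mem_bipartiteBelow, mem_filter] at hR
    obtain ⟨⟨-, hf⟩, s, hsR, rfl, hv⟩ := hR
    rw [mem_image]
    refine ⟨s, ?_, erase_insert hsR⟩
    rw [mem_filter, erase_insert hsR]
    exact ⟨mem_insert_self _ _, hf, hv⟩

/-- Second double counting: every infeasible `r`-set contains an infeasible `D`-set. -/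
theorem count_infeasible (P : Finset ι) (feas : Finset ι → Prop) [DecidablePred feas]
    (D r : ℕ) (hDr : D ≤ r)
    (h3 : ∀ R ⊆ P, D ≤ R.card → ¬ feas R → ∃ T ⊆ R, T.card = D ∧ ¬ feas T) :
    ((P.powersetCard r).filter (fun R => ¬ feas R)).card ≤
      ((P.powersetCard D).filter (fun T => ¬ feas T)).card * (P.card - D).choose (r - D) := by
  classical
  rw [← mul_one ((P.powersetCard r).filter (fun R => ¬ feas R)).card]
  refine card_mul_le_card_mul (fun R T => T ⊆ R) ?_ ?_
  · intro R hR
    rw [mem_filter, mem_powersetCard] at hR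
    obtain ⟨⟨hRP, hRc⟩, hf⟩ := hR
    obtain ⟨T, hTR, hTc, hT⟩ := h3 R hRP (hRc ▸ hDr) hf
    rw [Nat.one_le_iff_ne_zero, ← Nat.pos_iff_ne_zero, card_pos]
    refine ⟨T, ?_⟩
    rw [mem_bipartiteAbove, mem_filter, mem_powersetCard]
    exact ⟨⟨⟨hTR.trans hRP, hTc⟩, hT⟩, hTR⟩
  · intro T hT
    rw [mem_filter, mem_powersetCard] at hT
    obtain ⟨⟨hTP, hTc⟩, -⟩ := hT
    have := card_filter_powersetCard_subset T P r hTP (hTc ▸ hDr)
    rw [hTc] at this
    rw [← this]
    refine card_le_card ?_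
    intro R hR
    rw [mem_bipartiteBelow, mem_filter] at hR
    rw [mem_filter]
    exact ⟨hR.1.1, hR.2⟩

/-- The abstract sampling bound. -/
theorem sampling_bound (P : Finset ι) (feas : Finset ι → Prop) [DecidablePred feas]
    (viol : Finset ι → ι → Prop) [∀ R, DecidablePred (viol R)] (D m : ℕ)
    (hD : D ≤ P.card) (hm : 1 ≤ m) (hmn : m ≤ P.card)
    (h1 : ∀ R ⊆ P, feas R → m ≤ ((P \ R).filter (viol R)).card)
    (h2 : ∀ R ⊆ P, (R.filter (fun s => feas (R.erase s) ∧ viol (R.erase s) s)).card ≤ D)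
    (h3 : ∀ R ⊆ P, D ≤ R.card → ¬ feas R → ∃ T ⊆ R, T.card = D ∧ ¬ feas T) :
    P.card.choose D * m ^ D ≤
      2 * ((P.powersetCard D).filter (fun T => ¬ feas T)).card * (2 * D * P.card) ^ D := by
  classical
  set n := P.card with hn
  set r := min n (2 * D * n / m) with hr
  have hmpos : 0 < m := hm
  have hrn : r ≤ n := min_le_left _ _
  have hDr : D ≤ r := by
    refine le_min hD ?_
    rw [Nat.le_div_iff_mul_le hmpos]
    nlinarith
  have hrm : r * m ≤ 2 * D * n := by
    have : r ≤ 2 * D * n / m := min_le_right _ _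
    exact (Nat.le_div_iff_mul_le hmpos).1 this
  set F := ((P.powersetCard r).filter feas).card with hF
  set I := ((P.powersetCard r).filter (fun R => ¬ feas R)).card with hI
  set b := ((P.powersetCard D).filter (fun T => ¬ feas T)).card with hb
  have hFI : F + I = n.choose r := by
    rw [hF, hI, card_filter_add_card_filter_not, card_powersetCard]
  have c1 : F * m ≤ n.choose (r + 1) * D := count_feasible P feas viol D m r h1 h2
  have c2 : I ≤ b * (n - D).choose (r - D) := count_infeasible P feas D r hDr h3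
  have hhalf : 2 * F ≤ n.choose r := by
    rcases le_total n (2 * D * n / m) with h | h
    · have hrn' : r = n := min_eq_left h
      rw [hrn', Nat.choose_succ_self, zero_mul] at c1
      have : F = 0 := by
        rcases Nat.eq_zero_or_pos F with h0 | h0
        · exact h0
        · have := Nat.mul_pos h0 hmpos
          omega
      omega
    · have hr' : r = 2 * D * n / m := min_eq_right h
      have hlt : 2 * D * n < (r + 1) * m := by
        rw [hr']
        have := Nat.lt_mul_div_succ (2 * D * n) hmpos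
        linarith
      have hs : n.choose (r + 1) * (r + 1) = n.choose r * (n - r) := Nat.choose_succ_right_eq n r
      have hnr : n - r ≤ n := Nat.sub_le _ _
      have h5 : (2 * F) * (D * n) ≤ n.choose r * (D * n) := by
        calc (2 * F) * (D * n) = F * (2 * D * n) := by ring
          _ ≤ F * ((r + 1) * m) := Nat.mul_le_mul_left _ hlt.le
          _ = (F * m) * (r + 1) := by ring
          _ ≤ (n.choose (r + 1) * D) * (r + 1) := Nat.mul_le_mul_right _ c1
          _ = (n.choose (r + 1) * (r + 1)) * D := by ring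
          _ = n.choose r * (n - r) * D := by rw [hs]
          _ ≤ n.choose r * n * D := by gcongr
          _ = n.choose r * (D * n) := by ring
      rcases Nat.eq_zero_or_pos D with hD0 | hDpos
      · rw [hD0, mul_zero] at c1
        have : F = 0 := by
          rcases Nat.eq_zero_or_pos F with h0 | h0
          · exact h0
          · have := Nat.mul_pos h0 hmpos
            omega
        omega
      · exact Nat.le_of_mul_le_mul_right h5 (Nat.mul_pos hDpos (by omega))
  have hI2 : n.choose r ≤ 2 * I := by omega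
  have hch : n.choose r * r.choose D = n.choose D * (n - D).choose (r - D) := Nat.choose_mul hDr
  have hpos : 0 < (n - D).choose (r - D) := Nat.choose_pos (by omega)
  have h6 : n.choose D ≤ 2 * b * r.choose D := by
    refine Nat.le_of_mul_le_mul_right ?_ hpos
    calc n.choose D * (n - D).choose (r - D) = n.choose r * r.choose D := hch.symm
      _ ≤ (2 * I) * r.choose D := Nat.mul_le_mul_right _ hI2
      _ ≤ (2 * (b * (n - D).choose (r - D))) * r.choose D := by gcongr
      _ = 2 * b * r.choose D * (n - D).choose (r - D) := by ring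
  have h7 : r.choose D ≤ r ^ D := Nat.choose_le_pow r D
  calc n.choose D * m ^ D ≤ (2 * b * r ^ D) * m ^ D := by
        refine Nat.mul_le_mul_right _ (h6.trans ?_)
        gcongr
    _ = 2 * b * (r * m) ^ D := by rw [mul_pow]; ring
    _ ≤ 2 * b * (2 * D * n) ^ D := by gcongr

end counting

section geometry

variable {E : Type*} [NormedAddCommGroup E] [InnerProductSpace ℝ E] [FiniteDimensional ℝ E]

/-- A nonempty closed convex set has a point of strictly smallest norm. -/
theorem exists_min_norm {K : Set E} (hne : K.Nonempty) (hcl : IsClosed K) (hcv : Convex ℝ K) :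
    ∃ x ∈ K, ∀ y ∈ K, y ≠ x → ‖x‖ < ‖y‖ := by
  have : CompleteSpace E := FiniteDimensional.complete ℝ E
  obtain ⟨v, hv, hmin⟩ := exists_norm_eq_iInf_of_complete_convex hne hcl.isComplete hcv 0
  rw [norm_eq_iInf_iff_real_inner_le_zero hcv hv] at hmin
  refine ⟨v, hv, fun y hy hyv => ?_⟩
  have h1 := hmin y hy
  have h2 : 0 < ‖y - v‖ := norm_pos_iff.2 (sub_ne_zero.2 hyv)
  have h3 : ‖y‖ ^ 2 = ‖v‖ ^ 2 + 2 * inner ℝ v (y - v) + ‖y - v‖ ^ 2 := by
    have := norm_add_sq_real v (y - v)
    rwa [add_sub_cancel] at this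
  rw [zero_sub, inner_neg_left] at h1
  have h4 : ‖v‖ ^ 2 < ‖y‖ ^ 2 := by nlinarith
  exact lt_of_pow_lt_pow_left₀ 2 (norm_nonneg _) h4

variable {ι : Type*} [DecidableEq ι]

open Classical in
/-- Counting form for closed convex sets. -/
theorem frac_helly_closed (P : Finset ι) (K : ι → Set E) (hcv : ∀ i ∈ P, Convex ℝ (K i))
    (hcl : ∀ i ∈ P, IsClosed (K i)) (m : ℕ) (hm : 1 ≤ m)
    (hD : Module.finrank ℝ E + 1 ≤ P.card)
    (hmiss : ∀ x : E, m ≤ (P.filter (fun i => x ∉ K i)).card) :
    P.card.choose (Module.finrank ℝ E + 1) * m ^ (Module.finrank ℝ E + 1) ≤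
      2 * ((P.powersetCard (Module.finrank ℝ E + 1)).filter
        (fun T => ¬ (⋂ i ∈ T, K i).Nonempty)).card *
        (2 * (Module.finrank ℝ E + 1) * P.card) ^ (Module.finrank ℝ E + 1) := by
  set D := Module.finrank ℝ E + 1 with hDdef
  have hex : ∀ R : Finset ι, ∃ x : E, R ⊆ P → (⋂ i ∈ R, K i).Nonempty →
      x ∈ (⋂ i ∈ R, K i) ∧ ∀ y ∈ (⋂ i ∈ R, K i), y ≠ x → ‖x‖ < ‖y‖ := by
    intro R
    by_cases h : R ⊆ P ∧ (⋂ i ∈ R, K i).Nonempty
    · obtain ⟨x, hx, hx'⟩ := exists_min_norm h.2
        (isClosed_biInter fun i hi => hcl i (h.1 hi))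
        (convex_iInter₂ fun i hi => hcv i (h.1 hi))
      exact ⟨x, fun _ _ => ⟨hx, hx'⟩⟩
    · exact ⟨0, fun h1 h2 => absurd ⟨h1, h2⟩ h⟩
  choose φ hφ using hex
  have helly : ∀ R ⊆ P, ¬ (⋂ i ∈ R, K i).Nonempty →
      ∃ T ⊆ R, T.card ≤ D ∧ ¬ (⋂ i ∈ T, K i).Nonempty := by
    intro R hR hne
    by_contra hcon
    push Not at hcon
    refine hne (Convex.helly_theorem' (𝕜 := ℝ) (fun i hi => hcv i (hR hi)) ?_)
    intro I hI hIc
    exact hcon I hI hIc
  refine sampling_bound P (fun R => (⋂ i ∈ R, K i).Nonempty) (fun R s => φ R ∉ K s) D m hD hm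
    ((hmiss 0).trans (card_filter_le _ _)) ?_ ?_ ?_
  · intro R hR hf
    refine (hmiss (φ R)).trans (card_le_card ?_)
    intro i hi
    rw [mem_filter] at hi
    rw [mem_filter, mem_sdiff]
    refine ⟨⟨hi.1, fun hiR => hi.2 ?_⟩, hi.2⟩
    exact Set.mem_iInter₂.1 (hφ R hR hf).1 i hiR
  · intro R hR
    by_cases hf : (⋂ i ∈ R, K i).Nonempty
    · obtain ⟨hx, hx'⟩ := hφ R hR hf
      -- Helly applied to the sets cut by the open ball of radius `‖φ R‖`
      have hne : ¬ (⋂ i ∈ R, (K i ∩ Metric.ball (0 : E) ‖φ R‖)).Nonempty ∨ R = ∅ := by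
        rcases R.eq_empty_or_nonempty with h | ⟨j, hj⟩
        · exact Or.inr h
        · left
          rintro ⟨y, hy⟩
          rw [Set.mem_iInter₂] at hy
          have hy1 : y ∈ ⋂ i ∈ R, K i := Set.mem_iInter₂.2 fun i hi => (hy i hi).1
          have hy2 : ‖y‖ < ‖φ R‖ := by simpa using (hy j hj).2
          by_cases hyx : y = φ R
          · rw [hyx] at hy2; exact lt_irrefl _ hy2
          · exact lt_asymm hy2 (hx' y hy1 hyx)
      rcases hne with hne | hne
      · have : ∃ T ⊆ R, T.card ≤ D ∧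
            ¬ (⋂ i ∈ T, (K i ∩ Metric.ball (0 : E) ‖φ R‖)).Nonempty := by
          by_contra hcon
          push Not at hcon
          refine hne (Convex.helly_theorem' (𝕜 := ℝ)
            (fun i hi => (hcv i (hR hi)).inter (convex_ball _ _)) ?_)
          intro I hI hIc
          exact hcon I hI hIc
        obtain ⟨T, hTR, hTc, hT⟩ := this
        refine le_trans (card_le_card ?_) hTc
        intro s hs
        rw [mem_filter] at hs
        obtain ⟨hsR, hfs, hvs⟩ := hs
        by_contra hsT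
        apply hT
        obtain ⟨hz, hz'⟩ := hφ (R.erase s) ((erase_subset _ _).trans hR) hfs
        refine ⟨φ (R.erase s), Set.mem_iInter₂.2 fun i hi => ⟨?_, ?_⟩⟩
        · refine Set.mem_iInter₂.1 hz i (mem_erase.2 ⟨?_, hTR hi⟩)
          rintro rfl
          exact hsT hi
        · rw [mem_ball_zero_iff]
          refine hz' (φ R) (Set.mem_iInter₂.2 fun j hj => Set.mem_iInter₂.1 hx j
            (mem_of_mem_erase hj)) ?_
          intro h
          apply hvs
          rw [← h]
          exact Set.mem_iInter₂.1 hx s hsR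
      · subst hne; simp
    · obtain ⟨T, hTR, hTc, hT⟩ := helly R hR hf
      refine le_trans (card_le_card ?_) hTc
      intro s hs
      rw [mem_filter] at hs
      obtain ⟨hsR, ⟨y, hy⟩, -⟩ := hs
      by_contra hsT
      apply hT
      refine ⟨y, Set.mem_iInter₂.2 fun i hi => Set.mem_iInter₂.1 hy i (mem_erase.2 ⟨?_, hTR hi⟩)⟩
      rintro rfl
      exact hsT hi
  · intro R hR hc hf
    obtain ⟨T, hTR, hTc, hT⟩ := helly R hR hf
    obtain ⟨J, hTJ, hJR, hJc⟩ := exists_subsuperset_card_eq hTR hTc hc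
    refine ⟨J, hJR, hJc, fun ⟨y, hy⟩ => hT ⟨y, ?_⟩⟩
    exact Set.mem_iInter₂.2 fun i hi => Set.mem_iInter₂.1 hy i (hTJ hi)

open Classical in
/-- Counting form for arbitrary convex sets. -/
theorem frac_helly_count (P : Finset ι) (C : ι → Set E) (hcv : ∀ i ∈ P, Convex ℝ (C i))
    (m : ℕ) (hm : 1 ≤ m) (hD : Module.finrank ℝ E + 1 ≤ P.card)
    (hmiss : ∀ x : E, m ≤ (P.filter (fun i => x ∉ C i)).card) :
    P.card.choose (Module.finrank ℝ E + 1) * m ^ (Module.finrank ℝ E + 1) ≤
      2 * ((P.powersetCard (Module.finrank ℝ E + 1)).filter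
        (fun T => ¬ (⋂ i ∈ T, C i).Nonempty)).card *
        (2 * (Module.finrank ℝ E + 1) * P.card) ^ (Module.finrank ℝ E + 1) := by
  have hex : ∀ R : Finset ι, ∃ x : E, (⋂ i ∈ R, C i).Nonempty → x ∈ ⋂ i ∈ R, C i := by
    intro R
    by_cases h : (⋂ i ∈ R, C i).Nonempty
    · obtain ⟨x, hx⟩ := h
      exact ⟨x, fun _ => hx⟩
    · exact ⟨0, fun h' => absurd h' h⟩
  choose ψ hψ using hex
  set W : ι → Finset E := fun i =>
    (P.powerset.filter (fun R => i ∈ R ∧ (⋂ j ∈ R, C j).Nonempty)).image ψ with hW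
  set K : ι → Set E := fun i => convexHull ℝ (W i : Set E) with hK
  have hKC : ∀ i ∈ P, K i ⊆ C i := by
    intro i hi
    refine convexHull_min ?_ (hcv i hi)
    intro x hx
    simp only [hW, coe_image, coe_filter, Set.mem_image, Set.mem_ofPred_eq] at hx
    obtain ⟨R, ⟨-, hiR, hne⟩, rfl⟩ := hx
    exact Set.mem_iInter₂.1 (hψ R hne) i hiR
  have hnerve : ∀ T ⊆ P, (⋂ i ∈ T, C i).Nonempty → (⋂ i ∈ T, K i).Nonempty := by
    intro T hT hne
    refine ⟨ψ T, Set.mem_iInter₂.2 fun i hi => subset_convexHull ℝ _ ?_⟩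
    simp only [hW, coe_image, coe_filter, Set.mem_image, Set.mem_ofPred_eq]
    exact ⟨T, ⟨mem_powerset.2 hT, hi, hne⟩, rfl⟩
  have h := frac_helly_closed P K (fun i _ => convex_convexHull ℝ _)
    (fun i _ => (W i).finite_toSet.isClosed_convexHull ℝ) m hm hD ?_
  · refine h.trans (Nat.mul_le_mul_right _ (Nat.mul_le_mul_left _ (card_le_card ?_)))
    intro T hT
    rw [mem_filter] at hT ⊢
    exact ⟨hT.1, fun hne => hT.2 (hnerve T (mem_powersetCard.1 hT.1).1 hne)⟩
  · intro x
    refine (hmiss x).trans (card_le_card ?_)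
    intro i hi
    rw [mem_filter] at hi ⊢
    exact ⟨hi.1, fun hx => hi.2 (hKC i hi.1 hx)⟩

open Classical in
/-- Fractional Helly estimate near `α = 1`: if at most a `β` fraction of the `(d+1)`-tuples have
empty intersection, some point is missed by at most `2 (d+1) (2β)^{1/(d+1)} n` of the sets. -/
theorem frac_helly (P : Finset ι) (C : ι → Set E) (hcv : ∀ i ∈ P, Convex ℝ (C i))
    (hD : Module.finrank ℝ E + 1 ≤ P.card) (β : ℝ) (hβ : 0 ≤ β)
    (hbad : (((P.powersetCard (Module.finrank ℝ E + 1)).filter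
        (fun T => ¬ (⋂ i ∈ T, C i).Nonempty)).card : ℝ) ≤
        β * (P.card.choose (Module.finrank ℝ E + 1) : ℝ)) :
    ∃ x : E, ((P.filter (fun i => x ∉ C i)).card : ℝ) ≤
      2 * (Module.finrank ℝ E + 1) * (2 * β) ^ (1 / ((Module.finrank ℝ E : ℝ) + 1)) * P.card := by
  set D := Module.finrank ℝ E + 1 with hDdef
  have hDR : (D : ℝ) = (Module.finrank ℝ E : ℝ) + 1 := by rw [hDdef]; push_cast; ring
  rw [← hDR]
  obtain ⟨x, hx⟩ : ∃ x : E, ∀ y : E,
      (P.filter (fun i => x ∉ C i)).card ≤ (P.filter (fun i => y ∉ C i)).card := by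
    have hne : ∃ k, ∃ x : E, (P.filter (fun i => x ∉ C i)).card = k := ⟨_, 0, rfl⟩
    obtain ⟨x, hx⟩ := Nat.find_spec hne
    exact ⟨x, fun y => hx ▸ Nat.find_min' hne ⟨y, rfl⟩⟩
  refine ⟨x, ?_⟩
  set m := (P.filter (fun i => x ∉ C i)).card with hmdef
  rcases Nat.eq_zero_or_pos m with h0 | hpos
  · rw [h0]; push_cast; positivity
  have h := frac_helly_count P C hcv m hpos hD hx
  rw [← hDdef] at h
  set b := ((P.powersetCard D).filter (fun T => ¬ (⋂ i ∈ T, C i).Nonempty)).card
  have hc : (0 : ℝ) < (P.card.choose D : ℝ) := by exact_mod_cast Nat.choose_pos hD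
  have h' : (P.card.choose D : ℝ) * (m : ℝ) ^ D ≤ 2 * b * (2 * D * P.card : ℝ) ^ D := by
    exact_mod_cast h
  have h2 : (m : ℝ) ^ D ≤ 2 * β * (2 * D * P.card : ℝ) ^ D := by
    refine le_of_mul_le_mul_left (h'.trans ?_) hc
    calc 2 * (b : ℝ) * (2 * D * P.card : ℝ) ^ D
        ≤ 2 * (β * (P.card.choose D : ℝ)) * (2 * D * P.card : ℝ) ^ D := by gcongr
      _ = _ := by ring
  have hD0 : D ≠ 0 := by omega
  have h3 : ((2 * β) ^ (1 / (D : ℝ))) ^ D = 2 * β := by
    rw [one_div]
    exact Real.rpow_inv_natCast_pow (by positivity) hD0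
  refine le_of_pow_le_pow_left₀ hD0 (by positivity) ?_
  calc (m : ℝ) ^ D ≤ 2 * β * (2 * D * P.card : ℝ) ^ D := h2
    _ = ((2 * β) ^ (1 / (D : ℝ))) ^ D * (2 * D * P.card : ℝ) ^ D := by rw [h3]
    _ = (2 * D * (2 * β) ^ (1 / (D : ℝ)) * P.card) ^ D := by rw [← mul_pow]; congr 1; ring

end geometry

end Pool.Agent.MP_ff3a4f_co
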