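import Mathlib.RingTheory.Flat.TorsionFree
import Mathlib.Analysis.SpecialFunctions.Pow.Continuity
import Mathlib.Analysis.LocallyConvex.Separation
import Mathlib.Analysis.InnerProductSpace.Dual
import Mathlib.RingTheory.TotallySplit
import Mathlib.RingTheory.Etale.Weakly
import Pool.Agent.MP_ff3a4f_co.FracHelly

/-!
A positive-fraction version of Kirchberger's theorem, with `g ε = O (ε ^ (1 / (d + 1)))`.
-/

namespace Pool.Agent.MP_ff3a4f_co.Kirchberger

open Finset Filter Topology

/-- Some affine hyperplane `{x | ⟪w, x⟫ = c}` (`w ≠ 0`) has `P` in one of its open half-spaces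
and `Q` in the other. -/
def Separated {d : ℕ} (P Q : Finset (EuclideanSpace ℝ (Fin d))) : Prop :=
  ∃ (w : EuclideanSpace ℝ (Fin d)) (c : ℝ), w ≠ 0 ∧
    (∀ p ∈ P, c < inner ℝ w p) ∧ (∀ q ∈ Q, inner ℝ w q < c)

/-- General position: every set of at most `d + 1` of the points is affinely independent. -/
def GeneralPosition {d : ℕ} (X : Finset (EuclideanSpace ℝ (Fin d))) : Prop :=
  ∀ S ⊆ X, S.card ≤ d + 1 → AffineIndependent ℝ (fun p : S => (p : EuclideanSpace ℝ (Fin d)))

open Classical in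
/-- The good `(d + 2)`-subsets of `A ∪ B`. -/
noncomputable def goodSets {d : ℕ} (A B : Finset (EuclideanSpace ℝ (Fin d))) :
    Finset (Finset (EuclideanSpace ℝ (Fin d))) :=
  ((A ∪ B).powersetCard (d + 2)).filter (fun S => Separated (A ∩ S) (B ∩ S))

theorem separated_of_weak {d : ℕ} (hd : 1 ≤ d) (P Q : Finset (EuclideanSpace ℝ (Fin d)))
    (w : EuclideanSpace ℝ (Fin d)) (c : ℝ) (hP : ∀ p ∈ P, c < inner ℝ w p)
    (hQ : ∀ q ∈ Q, inner ℝ w q < c) : Separated P Q := by
  by_cases hw : w ≠ 0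
  · exact ⟨w, c, hw, hP, hQ⟩
  push Not at hw
  subst hw
  set e : EuclideanSpace ℝ (Fin d) := EuclideanSpace.single (⟨0, hd⟩ : Fin d) (1 : ℝ) with he
  have he0 : e ≠ 0 := by
    intro h
    have := congrArg (fun v : EuclideanSpace ℝ (Fin d) => v ⟨0, hd⟩) h
    simp [he] at this
  obtain ⟨M, hM⟩ := ((P ∪ Q).image (fun p => |inner ℝ e p|)).bddAbove
  have hM' : ∀ p ∈ P ∪ Q, |inner ℝ e p| ≤ M := fun p hp =>
    hM (mem_coe.2 (mem_image_of_mem _ hp))
  rcases Q.eq_empty_or_nonempty with rfl | ⟨q, hq⟩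
  · refine ⟨e, -M - 1, he0, fun p hp => ?_, by simp⟩
    have := abs_le.1 (hM' p (mem_union_left _ hp))
    linarith [this.1]
  · have hc : 0 < c := by simpa using hQ q hq
    refine ⟨e, M + 1, he0, fun p hp => ?_, fun p hp => ?_⟩
    · have : c < 0 := by simpa using hP p hp
      linarith
    · have := abs_le.1 (hM' p (mem_union_right _ hp))
      linarith [this.2]

theorem separated_of_affineIndependent {d : ℕ} (hd : 1 ≤ d)
    (A B : Finset (EuclideanSpace ℝ (Fin d))) (hAB : Disjoint A B)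
    (h : AffineIndependent ℝ (fun p : (A ∪ B : Finset _) => (p : EuclideanSpace ℝ (Fin d)))) :
    Separated A B := by
  have h1 := AffineIndependent.convexHull_inter (R := ℝ) (s := A ∪ B) (t₁ := B) (t₂ := A) h
    subset_union_right subset_union_left
  have h2 : ((B : Set (EuclideanSpace ℝ (Fin d))) ∩ A) = ∅ := by
    rw [← coe_inter, disjoint_iff_inter_eq_empty.1 hAB.symm, coe_empty]
  rw [h2, convexHull_empty] at h1
  obtain ⟨f, u, v, hu, huv, hv⟩ := geometric_hahn_banach_compact_closed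
    (convex_convexHull ℝ (B : Set (EuclideanSpace ℝ (Fin d))))
    (B.finite_toSet.isCompact_convexHull ℝ)
    (convex_convexHull ℝ (A : Set (EuclideanSpace ℝ (Fin d))))
    (A.finite_toSet.isClosed_convexHull ℝ) (Set.disjoint_iff_inter_eq_empty.2 h1.symm)
  refine separated_of_weak hd A B ((InnerProductSpace.toDual ℝ _).symm f) u ?_ ?_
  · intro p hp
    rw [InnerProductSpace.toDual_symm_apply]
    exact huv.trans (hv p (subset_convexHull ℝ _ hp))
  · intro q hq
    rw [InnerProductSpace.toDual_symm_apply]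
    exact hu q (subset_convexHull ℝ _ hq)

open Classical in
theorem main_bound (d : ℕ) (hd : 1 ≤ d) (ε : ℝ) (hε : 0 ≤ ε) (N : ℕ)
    (A B : Finset (EuclideanSpace ℝ (Fin d))) (hAB : Disjoint A B) (hA : A.card = N)
    (hB : B.card = N) (hN : d + 2 ≤ 2 * N)
    (hgood : (1 - ε) * ((2 * N).choose (d + 2) : ℝ) ≤ (goodSets A B).card) :
    ∃ A' ⊆ A, ∃ B' ⊆ B, Separated A' B' ∧
      (1 - 4 * (d + 1) * (4 * ε) ^ (1 / ((d : ℝ) + 1))) * N ≤ A'.card ∧
      (1 - 4 * (d + 1) * (4 * ε) ^ (1 / ((d : ℝ) + 1))) * N ≤ B'.card := by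
  set X := A ∪ B with hX
  have hXc : X.card = 2 * N := by rw [hX, card_union_of_disjoint hAB, hA, hB]; ring
  set bad := (X.powersetCard (d + 2)).filter (fun S => ¬ Separated (A ∩ S) (B ∩ S)) with hbad
  have hsum : (goodSets A B).card + bad.card = (2 * N).choose (d + 2) := by
    rw [← hXc, ← card_powersetCard, ← card_filter_add_card_filter_not
      (s := X.powersetCard (d + 2)) (fun S => Separated (A ∩ S) (B ∩ S))]
    congr
  have hbadc : (bad.card : ℝ) ≤ ε * ((2 * N).choose (d + 2) : ℝ) := by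
    have : ((goodSets A B).card : ℝ) + bad.card = ((2 * N).choose (d + 2) : ℝ) := by
      exact_mod_cast hsum
    linarith
  have hNpos : 0 < N := by omega
  have hAne : A.Nonempty := card_pos.1 (hA ▸ hNpos)
  -- a point of `A` lying in few bad sets
  obtain ⟨a, haA, hamin⟩ := exists_min_image A (fun a => (bad.filter (fun S => a ∈ S)).card) hAne
  have hav : N * (bad.filter (fun S => a ∈ S)).card ≤ bad.card * (d + 2) := by
    rw [← hA]
    refine card_mul_le_card_mul (fun p S => p ∈ S) (fun p hp => hamin p hp) ?_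
    intro S hS
    have hSc : S.card = d + 2 := (mem_powersetCard.1 (mem_filter.1 hS).1).2
    rw [← hSc]
    refine card_le_card fun p hp => ?_
    exact (mem_bipartiteBelow _ |>.1 hp).2
  have hch : (2 * N) * (2 * N - 1).choose (d + 1) = (2 * N).choose (d + 2) * (d + 2) := by
    have := Nat.add_one_mul_choose_eq (2 * N - 1) (d + 1)
    rwa [show 2 * N - 1 + 1 = 2 * N by omega] at this
  have hav' : ((bad.filter (fun S => a ∈ S)).card : ℝ) ≤
      (2 * ε) * ((2 * N - 1).choose (d + 1) : ℝ) := by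
    have h1 : (N : ℝ) * ((bad.filter (fun S => a ∈ S)).card : ℝ) ≤ bad.card * (d + 2) := by
      exact_mod_cast hav
    have h2 : (2 * N : ℝ) * ((2 * N - 1).choose (d + 1) : ℝ) =
        ((2 * N).choose (d + 2) : ℝ) * (d + 2) := by exact_mod_cast hch
    have hN' : (0 : ℝ) < N := by exact_mod_cast hNpos
    refine le_of_mul_le_mul_left (h1.trans ?_) hN'
    calc (bad.card : ℝ) * (d + 2) ≤ ε * ((2 * N).choose (d + 2) : ℝ) * (d + 2) := by gcongr
      _ = ε * (((2 * N).choose (d + 2) : ℝ) * (d + 2)) := by ring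
      _ = _ := by rw [← h2]; ring
  -- the dual half-spaces
  set P := X.erase a with hP
  have haX : a ∈ X := mem_union_left _ haA
  have hPc : P.card = 2 * N - 1 := by rw [hP, card_erase_of_mem haX, hXc]
  set C : EuclideanSpace ℝ (Fin d) → Set (EuclideanSpace ℝ (Fin d)) := fun p =>
    if p ∈ A then {w | -1 < inner ℝ (p - a) w} else {w | inner ℝ (p - a) w < -1} with hC
  have hlin : ∀ v : EuclideanSpace ℝ (Fin d),
      IsLinearMap ℝ (fun w : EuclideanSpace ℝ (Fin d) => inner ℝ v w) := fun v =>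
    ⟨fun x y => inner_add_right _ _ _, fun c x => by simp [inner_smul_right]⟩
  have hCcv : ∀ p ∈ P, Convex ℝ (C p) := by
    intro p _
    simp only [hC]
    split_ifs
    · exact convex_halfSpace_gt (hlin _) _
    · exact convex_halfSpace_lt (hlin _) _
  have hfr : Module.finrank ℝ (EuclideanSpace ℝ (Fin d)) = d := finrank_euclideanSpace_fin
  have hmap : ((P.powersetCard (d + 1)).filter (fun T => ¬ (⋂ i ∈ T, C i).Nonempty)).card ≤
      (bad.filter (fun S => a ∈ S)).card := by
    refine card_le_card_of_injOn (fun T => insert a T) ?_ ?_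
    · intro T hT
      simp only [coe_filter, mem_powersetCard, Set.mem_ofPred_eq] at hT
      obtain ⟨⟨hTP, hTc⟩, hT⟩ := hT
      have haT : a ∉ T := fun h => (notMem_erase a X) (hTP h)
      simp only [hbad, coe_filter, mem_filter, mem_powersetCard, Set.mem_ofPred_eq]
      refine ⟨⟨⟨insert_subset haX (hTP.trans (erase_subset _ _)), ?_⟩, ?_⟩, mem_insert_self _ _⟩
      · rw [card_insert_of_notMem haT, hTc]
      · rintro ⟨w, c, -, hw1, hw2⟩
        apply hT
        have ht : 0 < inner ℝ w a - c :=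
          sub_pos.2 (hw1 a (mem_inter.2 ⟨haA, mem_insert_self _ _⟩))
        refine ⟨(inner ℝ w a - c)⁻¹ • w, Set.mem_iInter₂.2 fun p hp => ?_⟩
        have hval : inner ℝ (p - a) ((inner ℝ w a - c)⁻¹ • w) =
            (inner ℝ w a - c)⁻¹ * (inner ℝ w p - inner ℝ w a) := by
          rw [inner_smul_right, inner_sub_left, real_inner_comm w p, real_inner_comm w a]
        simp only [hC]
        split_ifs with hpA
        · have := hw1 p (mem_inter.2 ⟨hpA, mem_insert_of_mem hp⟩)
          simp only [Set.mem_ofPred_eq]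
          rw [hval, lt_inv_mul_iff₀ ht]
          linarith
        · have hpB : p ∈ B := by
            have := mem_union.1 ((hTP.trans (erase_subset _ _)) hp)
            tauto
          have := hw2 p (mem_inter.2 ⟨hpB, mem_insert_of_mem hp⟩)
          simp only [Set.mem_ofPred_eq]
          rw [hval, inv_mul_lt_iff₀ ht]
          linarith
    · intro T hT T' hT' hTT
      simp only [coe_filter, mem_powersetCard, Set.mem_ofPred_eq] at hT hT'
      have haT : a ∉ T := fun h => (notMem_erase a X) (hT.1.1 h)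
      have haT' : a ∉ T' := fun h => (notMem_erase a X) (hT'.1.1 h)
      have h : insert a T = insert a T' := hTT
      rw [← erase_insert haT, h, erase_insert haT']
  obtain ⟨w, hw⟩ := Pool.Agent.MP_ff3a4f_co.frac_helly P C hCcv (by rw [hfr, hPc]; omega)
    (2 * ε) (by positivity) (by
      rw [hfr, hPc]
      refine le_trans ?_ hav'
      exact_mod_cast hmap)
  rw [hfr, hPc] at hw
  set M := P.filter (fun i => w ∉ C i) with hM
  have hMle : (M.card : ℝ) ≤ 4 * (d + 1) * (4 * ε) ^ (1 / ((d : ℝ) + 1)) * N := by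
    refine hw.trans ?_
    have h1 : ((2 * N - 1 : ℕ) : ℝ) ≤ 2 * N := by
      exact_mod_cast Nat.sub_le _ _
    calc 2 * ((d : ℝ) + 1) * (2 * (2 * ε)) ^ (1 / ((d : ℝ) + 1)) * ((2 * N - 1 : ℕ) : ℝ)
        ≤ 2 * ((d : ℝ) + 1) * (2 * (2 * ε)) ^ (1 / ((d : ℝ) + 1)) * (2 * N) := by gcongr
      _ = _ := by rw [show 2 * (2 * ε) = 4 * ε by ring]; ring
  refine ⟨A \ M, sdiff_subset, B \ M, sdiff_subset, ?_, ?_, ?_⟩
  · refine separated_of_weak hd _ _ w (inner ℝ w a - 1) ?_ ?_
    · intro p hp
      rw [Finset.mem_sdiff] at hp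
      by_cases hpa : p = a
      · rw [hpa]; linarith
      have hpP : p ∈ P := mem_erase.2 ⟨hpa, mem_union_left _ hp.1⟩
      have hpC : w ∈ C p := by
        by_contra h
        exact hp.2 (mem_filter.2 ⟨hpP, h⟩)
      simp only [hC, if_pos hp.1, Set.mem_ofPred_eq] at hpC
      rw [inner_sub_left, real_inner_comm w p, real_inner_comm w a] at hpC
      linarith
    · intro p hp
      rw [Finset.mem_sdiff] at hp
      have hpA : p ∉ A := fun h => disjoint_left.1 hAB h hp.1
      have hpa : p ≠ a := fun h => hpA (h ▸ haA)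
      have hpP : p ∈ P := mem_erase.2 ⟨hpa, mem_union_right _ hp.1⟩
      have hpC : w ∈ C p := by
        by_contra h
        exact hp.2 (mem_filter.2 ⟨hpP, h⟩)
      simp only [hC, if_neg hpA, Set.mem_ofPred_eq] at hpC
      rw [inner_sub_left, real_inner_comm w p, real_inner_comm w a] at hpC
      linarith
  · have h1 : A.card ≤ (A \ M).card + M.card := card_le_card_sdiff_add_card
    have h2 : (N : ℝ) ≤ (A \ M).card + M.card := by rw [← hA]; exact_mod_cast h1
    linarith
  · have h1 : B.card ≤ (B \ M).card + M.card := card_le_card_sdiff_add_card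
    have h2 : (N : ℝ) ≤ (B \ M).card + M.card := by rw [← hB]; exact_mod_cast h1
    linarith

/-- **Positive-fraction Kirchberger theorem.** For every `d ≥ 1` there is `g` with `g ε → 0` as
`ε → 0`, indeed `g ε ≤ C ε ^ (1 / (d + 1))`, such that whenever at least a `1 - ε` fraction of the
`(d + 2)`-subsets of `A ∪ B` are good, some hyperplane separates subsets `A'`, `B'` of size at
least `(1 - g ε) N`.  General position is only used when `2 N < d + 2`. -/
theorem fractional_kirchberger (d : ℕ) (hd : 1 ≤ d) :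
    ∃ g : ℝ → ℝ, Tendsto g (𝓝[≥] 0) (𝓝 0) ∧
      (∃ C : ℝ, ∀ ε : ℝ, 0 ≤ ε → g ε ≤ C * ε ^ (1 / ((d : ℝ) + 1))) ∧
      ∀ ε : ℝ, 0 ≤ ε → ∀ (N : ℕ) (A B : Finset (EuclideanSpace ℝ (Fin d))),
        Disjoint A B → A.card = N → B.card = N →
        (d + 2 ≤ 2 * N ∨ GeneralPosition (A ∪ B)) →
        (1 - ε) * ((2 * N).choose (d + 2) : ℝ) ≤ (goodSets A B).card →
        ∃ A' ⊆ A, ∃ B' ⊆ B, Separated A' B' ∧
          (1 - g ε) * N ≤ A'.card ∧ (1 - g ε) * N ≤ B'.card := by
  have hp : 0 < 1 / ((d : ℝ) + 1) := by positivity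
  refine ⟨fun ε => 4 * (d + 1) * (4 * ε) ^ (1 / ((d : ℝ) + 1)), ?_, ?_, ?_⟩
  · refine Tendsto.mono_left ?_ nhdsWithin_le_nhds
    have hc : Continuous (fun ε : ℝ => 4 * ((d : ℝ) + 1) * (4 * ε) ^ (1 / ((d : ℝ) + 1))) :=
      continuous_const.mul ((continuous_const.mul continuous_id).rpow_const fun _ => Or.inr hp.le)
    have := hc.tendsto 0
    rwa [mul_zero, Real.zero_rpow hp.ne', mul_zero] at this
  · refine ⟨4 * (d + 1) * 4 ^ (1 / ((d : ℝ) + 1)), fun ε hε => le_of_eq ?_⟩
    simp only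
    rw [Real.mul_rpow (by norm_num) hε]
    ring
  · intro ε hε N A B hAB hA hB hgp hgood
    by_cases hN : d + 2 ≤ 2 * N
    · exact main_bound d hd ε hε N A B hAB hA hB hN hgood
    · have hgp' : GeneralPosition (A ∪ B) := hgp.resolve_left hN
      have hc : (A ∪ B).card ≤ d + 1 := by
        rw [card_union_of_disjoint hAB, hA, hB]; omega
      have hsep := separated_of_affineIndependent hd A B hAB (hgp' _ Subset.rfl hc)
      have hg : 0 ≤ 4 * ((d : ℝ) + 1) * (4 * ε) ^ (1 / ((d : ℝ) + 1)) * N := by positivity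
      refine ⟨A, Subset.rfl, B, Subset.rfl, hsep, ?_, ?_⟩
      · rw [hA]; simp only; linarith
      · rw [hB]; simp only; linarith

end Pool.Agent.MP_ff3a4f_co.Kirchberger
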