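import Mathlib.Tactic.Monotonicity.Lemmas
import Mathlib.LinearAlgebra.Lagrange
import Mathlib.Algebra.Order.Archimedean.Real.Hom
import Mathlib.Topology.Algebra.Polynomial
import Mathlib.Tactic.Polynomial.Basic
import Pool.Agent.MP_ff3a4f_co.Kirchberger

/-!
The construction showing that the exponent `1 / (d + 1)` cannot be improved.
-/

namespace Pool.Agent.MP_ff3a4f_co.Lower

open Finset Polynomial Pool.Agent.MP_ff3a4f_co.Kirchberger

/-- Heights growing so fast that each one dominates all interpolants of the earlier ones. -/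
theorem exists_heights (sg lab : ℕ → ℝ) : ∃ φ : ℕ → ℝ, ∀ i : ℕ, ∃ M : ℝ, 0 < M ∧ φ i = sg i * M ∧
    ∀ T ⊆ range i,
      |(Lagrange.interpolate T (fun j : ℕ => (j : ℝ)) φ).eval (i : ℝ)| < M ∧
      |(Lagrange.interpolate T (fun j : ℕ => (j : ℝ)) (fun j => lab j - φ j)).eval (i : ℝ)| < M := by
  classical
  let bd : ℕ → (ℕ → ℝ) → ℝ := fun n f => 1 + ∑ T ∈ (range n).powerset,
    (|(Lagrange.interpolate T (fun j : ℕ => (j : ℝ)) f).eval (n : ℝ)| +
      |(Lagrange.interpolate T (fun j : ℕ => (j : ℝ)) (fun j => lab j - f j)).eval (n : ℝ)|)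
  let Φ : ℕ → ℕ → ℝ := fun n => Nat.rec (fun _ => 0)
    (fun n f => Function.update f n (sg n * bd n f)) n
  have hΦ : ∀ n, Φ (n + 1) = Function.update (Φ n) n (sg n * bd n (Φ n)) := fun n => rfl
  have hstab : ∀ n j, j < n → Φ n j = Φ (j + 1) j := by
    intro n
    induction n with
    | zero => intro j hj; omega
    | succ n ih =>
      intro j hj
      rcases Nat.lt_succ_iff_lt_or_eq.1 hj with h | h
      · rw [hΦ, Function.update_of_ne (by omega), ih j h]
      · rw [h]
  refine ⟨fun j => Φ (j + 1) j, fun i => ⟨bd i (Φ i), ?_, ?_, ?_⟩⟩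
  · have : 0 ≤ ∑ T ∈ (range i).powerset,
      (|(Lagrange.interpolate T (fun j : ℕ => (j : ℝ)) (Φ i)).eval (i : ℝ)| +
      |(Lagrange.interpolate T (fun j : ℕ => (j : ℝ)) (fun j => lab j - Φ i j)).eval (i : ℝ)|) :=
      sum_nonneg fun _ _ => by positivity
    simp only [bd]
    linarith
  · simp only
    rw [hΦ, Function.update_self]
  · intro T hT
    have e1 : Lagrange.interpolate T (fun j : ℕ => (j : ℝ)) (fun j => Φ (j + 1) j) =
        Lagrange.interpolate T (fun j : ℕ => (j : ℝ)) (Φ i) :=
      Lagrange.interpolate_eq_of_values_eq_on _ _ fun j hj =>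
        (hstab i j (mem_range.1 (hT hj))).symm
    have e2 : Lagrange.interpolate T (fun j : ℕ => (j : ℝ)) (fun j => lab j - Φ (j + 1) j) =
        Lagrange.interpolate T (fun j : ℕ => (j : ℝ)) (fun j => lab j - Φ i j) :=
      Lagrange.interpolate_eq_of_values_eq_on _ _ fun j hj => by
        rw [hstab i j (mem_range.1 (hT hj))]
    rw [e1, e2]
    have hle := single_le_sum (f := fun T : Finset ℕ =>
      (|(Lagrange.interpolate T (fun j : ℕ => (j : ℝ)) (Φ i)).eval (i : ℝ)| +
      |(Lagrange.interpolate T (fun j : ℕ => (j : ℝ)) (fun j => lab j - Φ i j)).eval (i : ℝ)|))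
      (s := (range i).powerset) (fun _ _ => by positivity) (mem_powerset.2 hT)
    have a1 := abs_nonneg ((Lagrange.interpolate T (fun j : ℕ => (j : ℝ)) (Φ i)).eval (i : ℝ))
    have a2 := abs_nonneg
      ((Lagrange.interpolate T (fun j : ℕ => (j : ℝ)) (fun j => lab j - Φ i j)).eval (i : ℝ))
    simp only [bd]
    constructor <;> linarith

/-- The point with height `φ i` over the point `i` of the moment curve. -/
noncomputable def pt (e : ℕ) (φ : ℕ → ℝ) (i : ℕ) : EuclideanSpace ℝ (Fin (e + 1)) :=
  WithLp.toLp 2 (Fin.cons (φ i) (fun j : Fin e => (i : ℝ) ^ ((j : ℕ) + 1)) : Fin (e + 1) → ℝ)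

theorem inner_pt (e : ℕ) (φ : ℕ → ℝ) (i : ℕ) (w : EuclideanSpace ℝ (Fin (e + 1))) :
    inner ℝ w (pt e φ i) = w 0 * φ i + ∑ j : Fin e, w j.succ * (i : ℝ) ^ ((j : ℕ) + 1) := by
  rw [PiLp.inner_apply, Fin.sum_univ_succ]
  simp [pt, mul_comm]

theorem functional_of_poly (e : ℕ) (φ : ℕ → ℝ) (w0 : ℝ) (r : ℝ[X]) (hr : r.natDegree ≤ e) :
    ∃ (w : EuclideanSpace ℝ (Fin (e + 1))) (c : ℝ), ∀ i : ℕ,
      inner ℝ w (pt e φ i) - c = w0 * φ i + r.eval (i : ℝ) := by
  refine ⟨WithLp.toLp 2 (Fin.cons w0 (fun j : Fin e => r.coeff ((j : ℕ) + 1)) : Fin (e + 1) → ℝ),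
    - r.coeff 0, fun i => ?_⟩
  rw [inner_pt, eval_eq_sum_range' (Nat.lt_succ_of_le hr), sum_range_succ',
    ← Fin.sum_univ_eq_sum_range (fun j => r.coeff (j + 1) * (i : ℝ) ^ (j + 1)) e]
  simp
  ring

theorem poly_of_functional (e : ℕ) (φ : ℕ → ℝ) (w : EuclideanSpace ℝ (Fin (e + 1))) (c : ℝ) :
    ∃ r : ℝ[X], r.natDegree ≤ e ∧ ∀ i : ℕ,
      inner ℝ w (pt e φ i) - c = w 0 * φ i + r.eval (i : ℝ) := by
  refine ⟨C (-c) + ∑ j : Fin e, C (w j.succ) * X ^ ((j : ℕ) + 1), ?_, fun i => ?_⟩
  · refine (natDegree_add_le _ _).trans (max_le (by simp) ?_)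
    refine natDegree_sum_le_of_forall_le _ _ fun j _ => (natDegree_C_mul_X_pow_le _ _).trans ?_
    exact j.2
  · rw [inner_pt]
    simp [eval_finsetSum]
    ring

theorem natDegree_interp_le {e : ℕ} (T : Finset ℕ) (hT : T.card ≤ e + 1) (f : ℕ → ℝ) :
    (Lagrange.interpolate T (fun j : ℕ => (j : ℝ)) f).natDegree ≤ e := by
  have h := Lagrange.degree_interpolate_lt (s := T) (v := fun j : ℕ => (j : ℝ)) f
    (Nat.cast_injective.injOn)
  by_cases h0 : Lagrange.interpolate T (fun j : ℕ => (j : ℝ)) f = 0
  · rw [h0]; simp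
  · have := (natDegree_lt_iff_degree_lt h0).2 h
    omega

theorem affineIndependent_pt (e : ℕ) (φ : ℕ → ℝ)
    (hφ : ∀ i : ℕ, ∀ T ⊆ range i,
      (Lagrange.interpolate T (fun j : ℕ => (j : ℝ)) φ).eval (i : ℝ) ≠ φ i)
    (I : Finset ℕ) (hI : I.card ≤ e + 2) :
    AffineIndependent ℝ (fun i : I => pt e φ i) := by
  classical
  have key : ∀ lam : ℕ → ℝ, ∑ i ∈ I, lam i = 0 → ∑ i ∈ I, lam i • pt e φ i = 0 →
      ∀ i ∈ I, lam i = 0 := by
    intro lam h0 h1
    have hfun : ∀ (w0 : ℝ) (r : ℝ[X]), r.natDegree ≤ e →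
        ∑ i ∈ I, lam i * (w0 * φ i + r.eval (i : ℝ)) = 0 := by
      intro w0 r hr
      obtain ⟨w, c, hw⟩ := functional_of_poly e φ w0 r hr
      simp_rw [← hw, mul_sub, sum_sub_distrib, ← sum_mul, h0]
      have := congrArg (inner ℝ w) h1
      rw [inner_sum, inner_zero_right] at this
      simp_rw [inner_smul_right] at this
      rw [this]; ring
    rcases I.eq_empty_or_nonempty with rfl | hne
    · simp
    set n := I.max' hne with hn
    have hnI : n ∈ I := max'_mem I hne
    have hTc : (I.erase n).card ≤ e + 1 := by rw [card_erase_of_mem hnI]; omega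
    have hTr : I.erase n ⊆ range n := fun j hj => by
      have := mem_erase.1 hj
      exact mem_range.2 (lt_of_le_of_ne (le_max' I j this.2) this.1)
    have hinj : Set.InjOn (fun j : ℕ => (j : ℝ)) (I.erase n : Finset ℕ) :=
      Nat.cast_injective.injOn
    have hn0 : lam n = 0 := by
      have h := hfun (-1) _ (natDegree_interp_le (I.erase n) hTc φ)
      rw [← add_sum_erase I _ hnI, sum_eq_zero, add_zero] at h
      · rcases mul_eq_zero.1 h with h | h
        · exact h
        · exact absurd (by linarith) (hφ n _ hTr)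
      · intro j hj
        rw [Lagrange.eval_interpolate_at_node φ hinj hj]; ring
    intro i hi
    by_cases hin : i = n
    · rw [hin, hn0]
    have hiT : i ∈ I.erase n := mem_erase.2 ⟨hin, hi⟩
    have h := hfun 0 _ (natDegree_interp_le (I.erase n) hTc (fun j => if j = i then 1 else 0))
    rw [← add_sum_erase I _ hnI, hn0, zero_mul, zero_add, ← add_sum_erase _ _ hiT, sum_eq_zero,
      Lagrange.eval_interpolate_at_node _ hinj hiT] at h
    · simpa using h
    · intro j hj
      rw [Lagrange.eval_interpolate_at_node _ hinj (mem_of_mem_erase hj),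
        if_neg (mem_erase.1 hj).1]; ring
  rw [affineIndependent_iff]
  intro s w hw0 hw1 x hx
  have h := key (fun i => if h : i ∈ I then (if (⟨i, h⟩ : I) ∈ s then w ⟨i, h⟩ else 0) else 0)
    ?_ ?_ x x.2
  · simpa [hx] using h
  · rw [← sum_attach]
    simp only [coe_mem, dite_true, Subtype.coe_eta]
    rw [← sum_filter, filter_mem_eq_inter, attach_eq_univ, univ_inter, hw0]
  · rw [← sum_attach]
    simp only [coe_mem, dite_true, Subtype.coe_eta, ite_smul, zero_smul]
    rw [← sum_filter, filter_mem_eq_inter, attach_eq_univ, univ_inter, hw1]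

/-- A polynomial of degree at most `e` is positive at `2 j` and negative at `2 j + 1` for at most
`e` values of `j`. -/
theorem card_sign_changes {e : ℕ} (r : ℝ[X]) (hr : r.natDegree ≤ e) (J : Finset ℕ)
    (hJ : ∀ j ∈ J, 0 < r.eval ((2 * j : ℕ) : ℝ) ∧ r.eval ((2 * j + 1 : ℕ) : ℝ) < 0) :
    J.card ≤ e := by
  classical
  rcases J.eq_empty_or_nonempty with rfl | ⟨j0, hj0⟩
  · simp
  have hr0 : r ≠ 0 := by
    rintro rfl
    simpa using (hJ j0 hj0).1
  have hroot : ∀ j : ℕ, ∃ x : ℝ, j ∈ J → (2 * j : ℝ) ≤ x ∧ x ≤ 2 * j + 1 ∧ r.eval x = 0 := by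
    intro j
    by_cases hj : j ∈ J
    · obtain ⟨h1, h2⟩ := hJ j hj
      push_cast at h1 h2
      obtain ⟨x, hx, hx0⟩ := intermediate_value_Icc' (a := (2 * j : ℝ)) (b := 2 * j + 1)
        (by linarith) r.continuous.continuousOn (⟨h2.le, h1.le⟩ : (0 : ℝ) ∈ Set.Icc _ _)
      exact ⟨x, fun _ => ⟨hx.1, hx.2, hx0⟩⟩
    · exact ⟨0, fun h => absurd h hj⟩
  choose f hf using hroot
  have h1 : J.card ≤ r.roots.toFinset.card := by
    refine card_le_card_of_injOn f ?_ ?_
    · intro j hj
      simp only [mem_coe, Multiset.mem_toFinset]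
      exact (mem_roots hr0).2 (hf j hj).2.2
    · intro j hj j' hj' hjj
      obtain ⟨a1, a2, -⟩ := hf j hj
      obtain ⟨b1, b2, -⟩ := hf j' hj'
      rw [hjj] at a1 a2
      have c1 : ((2 * j : ℕ) : ℝ) ≤ ((2 * j' + 1 : ℕ) : ℝ) := by push_cast; linarith
      have c2 : ((2 * j' : ℕ) : ℝ) ≤ ((2 * j + 1 : ℕ) : ℝ) := by push_cast; linarith
      have c1' := Nat.cast_le.1 c1
      have c2' := Nat.cast_le.1 c2
      omega
  exact h1.trans ((Multiset.toFinset_card_le _).trans ((card_roots' r).trans hr))

open Classical in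
theorem construction (e N m : ℕ) (hm : 2 * m ≤ N) :
    ∃ A B : Finset (EuclideanSpace ℝ (Fin (e + 1))), Disjoint A B ∧ A.card = N ∧ B.card = N ∧
      GeneralPosition (A ∪ B) ∧
      (2 * N).choose (e + 1 + 2) ≤ (goodSets A B).card + (2 * m).choose (e + 2) * (2 * N) ∧
      ∀ A' ⊆ A, ∀ B' ⊆ B, Separated A' B' → A'.card + B'.card + m ≤ 2 * N + e := by
  set lab : ℕ → ℝ := fun i => if Even i then 1 else -1 with hlab
  set sg : ℕ → ℝ := fun i => if i < 2 * m then - lab i else lab i with hsg
  have hlab1 : ∀ i, |lab i| = 1 := fun i => by simp only [hlab]; split_ifs <;> simp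
  have hsg1 : ∀ i, |sg i| = 1 := fun i => by
    simp only [hsg]; split_ifs <;> simp [hlab1]
  obtain ⟨φ, hφ⟩ := exists_heights sg lab
  have hφne : ∀ i : ℕ, ∀ T ⊆ range i,
      (Lagrange.interpolate T (fun j : ℕ => (j : ℝ)) φ).eval (i : ℝ) ≠ φ i := by
    intro i T hT h
    obtain ⟨M, hM, hMe, hM'⟩ := hφ i
    have := (hM' T hT).1
    rw [h, hMe, abs_mul, hsg1, one_mul, abs_of_pos hM] at this
    exact lt_irrefl _ this
  have hind := affineIndependent_pt e φ hφne
  have hinj : Function.Injective (pt e φ) := by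
    intro i j hij
    have h := (hind {i, j} (card_le_two.trans (by omega))).injective
      (a₁ := ⟨i, by simp⟩) (a₂ := ⟨j, by simp⟩) hij
    exact congrArg Subtype.val h
  set A := (range N).image (fun j => pt e φ (2 * j)) with hA
  set B := (range N).image (fun j => pt e φ (2 * j + 1)) with hB
  have hAinj : Function.Injective (fun j => pt e φ (2 * j)) := fun i j h => by
    have := hinj h; omega
  have hBinj : Function.Injective (fun j => pt e φ (2 * j + 1)) := fun i j h => by
    have := hinj h; omega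
  have hAc : A.card = N := by rw [hA, card_image_of_injective _ hAinj, card_range]
  have hBc : B.card = N := by rw [hB, card_image_of_injective _ hBinj, card_range]
  have hAB : Disjoint A B := by
    rw [disjoint_left]
    intro x hx hx'
    obtain ⟨i, -, rfl⟩ := mem_image.1 hx
    obtain ⟨j, -, h⟩ := mem_image.1 hx'
    have := hinj h; omega
  have hXc : (A ∪ B).card = 2 * N := by rw [card_union_of_disjoint hAB, hAc, hBc]; ring
  have hlabE : ∀ j, lab (2 * j) = 1 := fun j => by simp [hlab]
  have hlabO : ∀ j, lab (2 * j + 1) = -1 := fun j => by simp [hlab]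
  refine ⟨A, B, hAB, hAc, hBc, ?_, ?_, ?_⟩
  · intro S hS hSc
    have hex : ∀ x ∈ S, ∃ i, pt e φ i = x := by
      intro x hx
      rcases mem_union.1 (hS hx) with h | h
      · obtain ⟨i, -, rfl⟩ := mem_image.1 h; exact ⟨_, rfl⟩
      · obtain ⟨i, -, rfl⟩ := mem_image.1 h; exact ⟨_, rfl⟩
    have hI := hind (S.preimage (pt e φ) hinj.injOn) (by
      refine le_trans (card_le_card_of_injOn (pt e φ) ?_ hinj.injOn) hSc
      intro i hi
      simpa using hi)
    refine AffineIndependent.mono (s := (S : Set (EuclideanSpace ℝ (Fin (e + 1))))) hI.range ?_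
    intro x hx
    obtain ⟨i, rfl⟩ := hex x hx
    exact ⟨⟨i, mem_preimage.2 hx⟩, rfl⟩
  · set Mid := (range (2 * m)).image (pt e φ) with hMid
    have hMc : Mid.card = 2 * m := by rw [hMid, card_image_of_injective _ hinj, card_range]
    set bad := ((A ∪ B).powersetCard (e + 1 + 2)).filter
      (fun S => ¬ Separated (A ∩ S) (B ∩ S)) with hbad
    have hsum : (goodSets A B).card + bad.card = (2 * N).choose (e + 1 + 2) := by
      rw [← hXc, ← card_powersetCard, ← card_filter_add_card_filter_not
        (s := (A ∪ B).powersetCard (e + 1 + 2)) (fun S => Separated (A ∩ S) (B ∩ S))]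
      congr
    have hb : bad.card * 1 ≤ (Mid.powersetCard (e + 2)).card * (2 * N) := by
      refine card_mul_le_card_mul (fun S T => T ⊆ S) ?_ ?_
      · intro S hS
        rw [hbad, mem_filter] at hS
        have hbig : e + 2 ≤ (S ∩ Mid).card := by
          by_contra hlt
          apply hS.2
          set I := (range (2 * m)).filter (fun i => pt e φ i ∈ S) with hI
          have hIc : I.card ≤ e + 1 := by
            refine le_trans (card_le_card_of_injOn (t := S ∩ Mid) (pt e φ) ?_ hinj.injOn)
              (by omega)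
            intro i hi
            have := mem_filter.1 hi
            exact mem_coe.2 (mem_inter.2 ⟨this.2, mem_image_of_mem _ this.1⟩)
          obtain ⟨w, c, hw⟩ := functional_of_poly e φ 1 _
            (natDegree_interp_le I hIc (fun j => lab j - φ j))
          have hval : ∀ i, pt e φ i ∈ S → 0 < lab i * (inner ℝ w (pt e φ i) - c) := by
            intro i hi
            rw [hw]
            have hl : lab i * lab i = 1 := by
              have := hlab1 i
              rw [← abs_mul_abs_self, this]; norm_num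
            by_cases him : i < 2 * m
            · rw [Lagrange.eval_interpolate_at_node _ Nat.cast_injective.injOn
                (mem_filter.2 ⟨mem_range.2 him, hi⟩)]
              nlinarith
            · obtain ⟨M, hM, hMe, hM'⟩ := hφ i
              have h2 := (hM' I (fun j hj => mem_range.2
                (lt_of_lt_of_le (mem_range.1 (mem_filter.1 hj).1) (not_lt.1 him)))).2
              have hs : sg i = lab i := by simp only [hsg, if_neg him]
              rw [hMe, hs]
              set y := (Lagrange.interpolate I (fun j : ℕ => (j : ℝ))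
                (fun j => lab j - φ j)).eval (i : ℝ)
              have h3 : |lab i * y| < M := by rw [abs_mul, hlab1, one_mul]; exact h2
              have h4 := (abs_lt.1 h3).1
              nlinarith
          refine separated_of_weak (by omega) _ _ w c ?_ ?_
          · intro p hp
            obtain ⟨hpA, hpS⟩ := mem_inter.1 hp
            obtain ⟨j, -, rfl⟩ := mem_image.1 hpA
            have := hval _ hpS
            rw [hlabE] at this
            linarith
          · intro p hp
            obtain ⟨hpB, hpS⟩ := mem_inter.1 hp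
            obtain ⟨j, -, rfl⟩ := mem_image.1 hpB
            have := hval _ hpS
            rw [hlabO] at this
            linarith
        obtain ⟨T, hT, hTc⟩ := exists_subset_card_eq hbig
        rw [Nat.one_le_iff_ne_zero, ← Nat.pos_iff_ne_zero, card_pos]
        refine ⟨T, (mem_bipartiteAbove _).2 ⟨mem_powersetCard.2
          ⟨hT.trans inter_subset_right, hTc⟩, hT.trans inter_subset_left⟩⟩
      · intro T hT
        have hTc := (mem_powersetCard.1 hT).2
        by_cases hTX : T ⊆ A ∪ B
        · have := card_filter_powersetCard_subset T (A ∪ B) (e + 1 + 2) hTX (by omega)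
          rw [hTc, hXc, show e + 1 + 2 - (e + 2) = 1 by omega, Nat.choose_one_right] at this
          refine le_trans (card_le_card ?_) (this.le.trans (Nat.sub_le _ _))
          intro S hS
          have h := (mem_bipartiteBelow _).1 hS
          exact mem_filter.2 ⟨(mem_filter.1 h.1).1, h.2⟩
        · rw [card_eq_zero.2]
          · exact Nat.zero_le _
          · rw [eq_empty_iff_forall_notMem]
            intro S hS
            have h := (mem_bipartiteBelow _).1 hS
            exact hTX (h.2.trans (mem_powersetCard.1 (mem_filter.1 h.1).1).1)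
    rw [card_powersetCard, hMc] at hb
    omega
  · rintro A' hA' B' hB' ⟨w, c, -, hw1, hw2⟩
    obtain ⟨r, hr, hrw⟩ := poly_of_functional e φ w c
    -- a block of `m` consecutive pairs on which the heights point the wrong way
    obtain ⟨K, hKc, hKN, hK⟩ : ∃ K : Finset ℕ, K.card = m ∧ K ⊆ range N ∧
        ∀ j ∈ K, w 0 * φ (2 * j) ≤ 0 ∧ 0 ≤ w 0 * φ (2 * j + 1) := by
      rcases le_total 0 (w 0) with h | h
      · refine ⟨range m, card_range m, range_mono (by omega), fun j hj => ?_⟩
        have hj' := mem_range.1 hj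
        obtain ⟨M, hM, hMe, -⟩ := hφ (2 * j)
        obtain ⟨M', hM', hMe', -⟩ := hφ (2 * j + 1)
        have s1 : sg (2 * j) = -1 := by simp only [hsg, if_pos (by omega : 2 * j < 2 * m), hlabE]
        have s2 : sg (2 * j + 1) = 1 := by
          simp only [hsg, if_pos (by omega : 2 * j + 1 < 2 * m), hlabO]; ring
        rw [hMe, hMe', s1, s2]
        constructor <;> nlinarith
      · refine ⟨Ico m (2 * m), by simp; omega, fun j hj => ?_, fun j hj => ?_⟩
        · have := mem_Ico.1 hj
          exact mem_range.2 (by omega)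
        have hj' := mem_Ico.1 hj
        obtain ⟨M, hM, hMe, -⟩ := hφ (2 * j)
        obtain ⟨M', hM', hMe', -⟩ := hφ (2 * j + 1)
        have s1 : sg (2 * j) = 1 := by simp only [hsg, if_neg (by omega : ¬ 2 * j < 2 * m), hlabE]
        have s2 : sg (2 * j + 1) = -1 := by
          simp only [hsg, if_neg (by omega : ¬ 2 * j + 1 < 2 * m), hlabO]
        rw [hMe, hMe', s1, s2]
        constructor <;> nlinarith
    set JA := (range N).filter (fun j => pt e φ (2 * j) ∈ A') with hJA
    set JB := (range N).filter (fun j => pt e φ (2 * j + 1) ∈ B') with hJB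
    have cA : A'.card ≤ JA.card := by
      refine le_trans (card_le_card ?_) (card_image_le (f := fun j => pt e φ (2 * j)))
      intro x hx
      obtain ⟨j, hj, rfl⟩ := mem_image.1 (hA' hx)
      exact mem_image.2 ⟨j, mem_filter.2 ⟨hj, hx⟩, rfl⟩
    have cB : B'.card ≤ JB.card := by
      refine le_trans (card_le_card ?_) (card_image_le (f := fun j => pt e φ (2 * j + 1)))
      intro x hx
      obtain ⟨j, hj, rfl⟩ := mem_image.1 (hB' hx)
      exact mem_image.2 ⟨j, mem_filter.2 ⟨hj, hx⟩, rfl⟩
    have hboth : (K ∩ (JA ∩ JB)).card ≤ e := by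
      refine card_sign_changes r hr _ fun j hj => ?_
      obtain ⟨hjK, hj2⟩ := mem_inter.1 hj
      obtain ⟨hjA, hjB⟩ := mem_inter.1 hj2
      have a1 := hw1 _ (mem_filter.1 hjA).2
      have a2 := hw2 _ (mem_filter.1 hjB).2
      have b1 := hrw (2 * j)
      have b2 := hrw (2 * j + 1)
      obtain ⟨k1, k2⟩ := hK j hjK
      constructor <;> linarith
    have h1 : (JA ∪ JB).card + (JA ∩ JB).card = JA.card + JB.card := card_union_add_card_inter _ _
    have h2 : (JA ∪ JB).card ≤ N := by
      refine le_trans (card_le_card (union_subset (filter_subset _ _) (filter_subset _ _))) ?_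
      rw [card_range]
    have h3 : (K ∪ (JA ∩ JB)).card + (K ∩ (JA ∩ JB)).card = K.card + (JA ∩ JB).card :=
      card_union_add_card_inter _ _
    have h4 : (K ∪ (JA ∩ JB)).card ≤ N := by
      refine le_trans (card_le_card (union_subset hKN
        (inter_subset_left.trans (filter_subset _ _)))) ?_
      rw [card_range]
    omega

end Pool.Agent.MP_ff3a4f_co.Lower
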